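import Pool.Agent.Lib.MP_e326dc_an.N.Quot
import Pool.Agent.Lib.MP_e326dc_an.E.LieTower
import Pool.Agent.Lib.MP_e326dc_an.G.Assembly

set_option autoImplicit false

/-!
MP_e326dc_an, block N: `nil_factor`.
-/

namespace MP_e326dc_an

open Filter Topology Set

/-- A minimal metrizable system of finite order has nilsystem factors through which finitely many
continuous functions factor up to `ε` and finitely many polynomial circle coordinates factor
exactly. -/
theorem nil_factor_of (hlift : ∀ {P P' : DSys} {l : ℕ} (L : LieStep P P' l), L.Liftable)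
    (P : DSys) (hm : TopologicalSpace.MetrizableSpace P.X) (s : ℕ) (hP : P.Ord s)
    (z : P.X) (a b : ℕ) (F : Fin a → C(P.X, ℂ)) (p : Fin b → C(P.X, UnitAddCircle))
    (hp : ∀ i, ∃ d, ∀ x, PolyLE d (fun n : ℤ => p i ((P.T ^ n) x))) (ε : ℝ) (hε : 0 < ε) :
    ∃ (S : NilSystem) (π : P.X → S.Y), Continuous π ∧ Function.Surjective π ∧
      (∀ x, π (P.T x) = S.g • π x) ∧ S.y = π z ∧
      ∃ (F' : Fin a → C(S.Y, ℂ)) (p' : Fin b → C(S.Y, UnitAddCircle)),
        (∀ i x, ‖F i x - F' i (π x)‖ ≤ ε) ∧ ∀ i x, p i x = p' i (π x) := by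
  obtain ⟨Y, hY, f, F', p', hF, hp', hsc⟩ :=
    exists_lieTower_of hlift (fun hl hP g hg => IsStr.isTransl hP.min hl hP.uniq hg) hP F p hp hε
  have h1 : SecondCountableTopology P.X := by
    let _ := TopologicalSpace.metrizableSpaceMetric P.X
    infer_instance
  have h2 : SecondCountableTopology Y.X := hsc h1
  obtain ⟨S, Φ, hΦ, hy⟩ := hY.exists_nilSystem hlift (f.π z)
  refine ⟨S, fun x => Φ.symm (f.π x), Φ.symm.continuous.comp f.cont,
    Φ.symm.surjective.comp f.surj, ?_, ?_, fun i => (F' i).comp ⟨Φ, Φ.continuous⟩,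
    fun i => (p' i).comp ⟨Φ, Φ.continuous⟩, ?_, ?_⟩
  · intro x
    rw [Homeomorph.symm_apply_eq, hΦ, Homeomorph.apply_symm_apply, f.equi]
  · rw [Homeomorph.eq_symm_apply]
    exact hy
  · intro i x
    have h3 : ((F' i).comp ⟨Φ, Φ.continuous⟩ : C(S.Y, ℂ)) (Φ.symm (f.π x)) = F' i (f.π x) := by
      change F' i (Φ (Φ.symm (f.π x))) = _
      rw [Homeomorph.apply_symm_apply]
    rw [h3]
    exact hF i x
  · intro i x
    change _ = p' i (Φ (Φ.symm (f.π x)))
    rw [Homeomorph.apply_symm_apply]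
    exact hp' i x

theorem nil_factor : IN := by
  intro P hm s hP z a b F p hp ε hε
  exact nil_factor_of (fun L => L.liftable) P hm s hP z a b F p hp ε hε

end MP_e326dc_an
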