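import Mathlib

set_option autoImplicit false

/-!
MP_e326dc_an, block N: the topological group of homeomorphisms of a compact Hausdorff space.

The topology of `X ≃ₜ X` is induced by `g ↦ (g, g⁻¹)` from the compact-open topology.
-/

namespace MP_e326dc_an

open Filter Topology Set

section homeo

variable {X : Type*} [TopologicalSpace X]

/-- the homeomorphism and its inverse as continuous maps -/
def homeoPair (g : X ≃ₜ X) : C(X, X) × C(X, X) :=
  (⟨g, g.continuous⟩, ⟨g.symm, g.symm.continuous⟩)

/-- the topology of compact convergence of the homeomorphisms and of their inverses -/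
instance homeoTop : TopologicalSpace (X ≃ₜ X) :=
  TopologicalSpace.induced homeoPair inferInstance

theorem homeo_isInducing : IsInducing (homeoPair : (X ≃ₜ X) → C(X, X) × C(X, X)) := ⟨rfl⟩

theorem homeoPair_injective : Function.Injective (homeoPair : (X ≃ₜ X) → C(X, X) × C(X, X)) := by
  intro g h hgh
  ext x
  have h1 := congrArg (fun p : C(X, X) × C(X, X) => p.1 x) hgh
  exact h1

theorem homeo_continuous_coe : Continuous (fun g : X ≃ₜ X => (⟨g, g.continuous⟩ : C(X, X))) :=
  continuous_fst.comp homeo_isInducing.continuous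

theorem homeo_continuous_coe_symm :
    Continuous (fun g : X ≃ₜ X => (⟨g.symm, g.symm.continuous⟩ : C(X, X))) :=
  continuous_snd.comp homeo_isInducing.continuous

theorem homeo_tendsto_iff {α : Type*} {l : Filter α} {f : α → (X ≃ₜ X)} {g : X ≃ₜ X} :
    Tendsto f l (𝓝 g) ↔
      Tendsto (fun a => (⟨f a, (f a).continuous⟩ : C(X, X))) l (𝓝 ⟨g, g.continuous⟩) ∧
      Tendsto (fun a => (⟨(f a).symm, (f a).symm.continuous⟩ : C(X, X))) l
        (𝓝 ⟨g.symm, g.symm.continuous⟩) := by
  rw [homeo_isInducing.tendsto_nhds_iff]
  exact Prod.tendsto_iff _ _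

theorem homeo_continuous_iff {Z : Type*} [TopologicalSpace Z] {f : Z → (X ≃ₜ X)} :
    Continuous f ↔
      Continuous (fun a => (⟨f a, (f a).continuous⟩ : C(X, X))) ∧
      Continuous (fun a => (⟨(f a).symm, (f a).symm.continuous⟩ : C(X, X))) := by
  rw [homeo_isInducing.continuous_iff, continuous_prodMk.symm]
  rfl

instance homeo_t2 [T2Space X] : T2Space (X ≃ₜ X) :=
  T2Space.of_injective_continuous homeoPair_injective homeo_isInducing.continuous

instance homeo_sc [SecondCountableTopology X] [LocallyCompactSpace X] :
    SecondCountableTopology (X ≃ₜ X) :=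
  homeo_isInducing.secondCountableTopology

instance homeo_topGroup [LocallyCompactSpace X] : IsTopologicalGroup (X ≃ₜ X) where
  continuous_mul := by
    rw [homeo_continuous_iff]
    constructor
    · exact (homeo_continuous_coe.comp continuous_fst).compCM
        (homeo_continuous_coe.comp continuous_snd)
    · exact (homeo_continuous_coe_symm.comp continuous_snd).compCM
        (homeo_continuous_coe_symm.comp continuous_fst)
  continuous_inv := by
    rw [homeo_continuous_iff]
    exact ⟨homeo_continuous_coe_symm, homeo_continuous_coe⟩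

theorem homeo_continuous_eval [LocallyCompactSpace X] :
    Continuous (fun p : (X ≃ₜ X) × X => p.1 p.2) := by
  have h : Continuous (fun p : (X ≃ₜ X) × X => ((⟨p.1, p.1.continuous⟩ : C(X, X)), p.2)) :=
    (homeo_continuous_coe.comp continuous_fst).prodMk continuous_snd
  exact (ContinuousEval.continuous_eval (F := C(X, X)) (X := X) (Y := X)).comp h

theorem homeo_continuous_apply (x : X) : Continuous (fun g : X ≃ₜ X => g x) := by
  have h : Continuous fun f : C(X, X) => f x := continuous_eval_const x
  exact h.comp homeo_continuous_coe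

/-- The neighbourhoods of the identity: given by the neighbourhoods of the diagonal. -/
theorem homeo_mem_nhds_one [CompactSpace X] [T2Space X] {U : Set (X ≃ₜ X)} :
    U ∈ 𝓝 (1 : X ≃ₜ X) ↔ ∃ V ∈ 𝓝ˢ (diagonal X), ∀ g : X ≃ₜ X, (∀ x, (x, g x) ∈ V) → g ∈ U := by
  constructor
  · intro hU
    -- the filter generated by the neighbourhoods of the diagonal
    let F : Filter (X ≃ₜ X) :=
      { sets := {U | ∃ V ∈ 𝓝ˢ (diagonal X), ∀ g : X ≃ₜ X, (∀ x, (x, g x) ∈ V) → g ∈ U}
        univ_sets := ⟨univ, univ_mem, fun _ _ => mem_univ _⟩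
        sets_of_superset := by
          rintro U U' ⟨V, hV, h⟩ hUU'
          exact ⟨V, hV, fun g hg => hUU' (h g hg)⟩
        inter_sets := by
          rintro U U' ⟨V, hV, h⟩ ⟨V', hV', h'⟩
          exact ⟨V ∩ V', inter_mem hV hV', fun g hg =>
            ⟨h g fun x => (hg x).1, h' g fun x => (hg x).2⟩⟩ }
    have hF : Tendsto (fun g : X ≃ₜ X => g) F (𝓝 1) := by
      rw [homeo_tendsto_iff]
      constructor
      · rw [ContinuousMap.tendsto_nhds_compactOpen]
        intro K hK W hW hKW
        have hKW' : K ⊆ W := fun x hx => hKW hx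
        refine ⟨Kᶜ ×ˢ univ ∪ univ ×ˢ W, ?_, ?_⟩
        · refine IsOpen.mem_nhdsSet ((hK.isClosed.isOpen_compl.prod isOpen_univ).union
            (isOpen_univ.prod hW)) |>.2 ?_
          rintro ⟨x, y⟩ hxy
          have hxy' : x = y := hxy
          subst hxy'
          by_cases hx : x ∈ K
          · exact Or.inr ⟨mem_univ _, hKW' hx⟩
          · exact Or.inl ⟨hx, mem_univ _⟩
        · intro g hg x hx
          rcases hg x with h | h
          · exact absurd hx h.1
          · exact h.2
      · rw [ContinuousMap.tendsto_nhds_compactOpen]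
        intro K hK W hW hKW
        have hKW' : K ⊆ W := fun x hx => hKW hx
        refine ⟨univ ×ˢ Kᶜ ∪ W ×ˢ univ, ?_, ?_⟩
        · refine IsOpen.mem_nhdsSet ((isOpen_univ.prod hK.isClosed.isOpen_compl).union
            (hW.prod isOpen_univ)) |>.2 ?_
          rintro ⟨x, y⟩ hxy
          have hxy' : x = y := hxy
          subst hxy'
          by_cases hx : x ∈ K
          · exact Or.inr ⟨hKW' hx, mem_univ _⟩
          · exact Or.inl ⟨mem_univ _, hx⟩
        · intro g hg x hx
          have h1 := hg (g.symm x)
          rw [g.apply_symm_apply] at h1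
          rcases h1 with h | h
          · exact absurd hx h.2
          · exact h.1
    exact hF hU
  · rintro ⟨V, hV, h⟩
    have h1 : ∀ᶠ g : X ≃ₜ X in 𝓝 1, ∀ x ∈ (univ : Set X), (x, g x) ∈ V := by
      apply isCompact_univ.eventually_forall_of_forall_eventually
      intro x _
      have hc : Continuous (fun z : (X ≃ₜ X) × X => (z.2, z.1 z.2)) :=
        continuous_snd.prodMk homeo_continuous_eval
      have hV' : V ∈ 𝓝 (x, (1 : X ≃ₜ X) x) := by
        have := mem_nhdsSet_iff_forall.1 hV (x, x) rfl
        simpa using this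
      exact hc.continuousAt.tendsto hV'
    filter_upwards [h1] with g hg
    exact h g fun x => hg x (mem_univ x)

end homeo

end MP_e326dc_an
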