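import Pool.Agent.Lib.MP_e326dc_an.N.TowerLie
import Pool.Agent.Lib.MP_e326dc_an.Final

set_option autoImplicit false

/-!
MP_e326dc_an, block N: a Lie tower is a nilmanifold.
-/

namespace MP_e326dc_an

open Filter Topology Set
open scoped ContDiff Manifold

/-- a Hausdorff continuous image of a compact second countable space is second countable -/
theorem secondCountable_of_surj {X Y : Type*} [TopologicalSpace X] [CompactSpace X]
    [SecondCountableTopology X] [TopologicalSpace Y] [T2Space Y] (f : X → Y) (hf : Continuous f)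
    (hs : Function.Surjective f) : SecondCountableTopology Y := by
  let B := TopologicalSpace.countableBasis X
  have hB : TopologicalSpace.IsTopologicalBasis B := TopologicalSpace.isBasis_countableBasis X
  let 𝒱 : Set (Set Y) := (fun s : Set (Set X) => (f '' (⋃₀ s)ᶜ)ᶜ) '' {s | s ⊆ B ∧ s.Finite}
  have hcount : 𝒱.Countable := by
    apply Countable.image
    have h1 := Set.countable_ofPred_finite_subset (TopologicalSpace.countable_countableBasis X)
    refine h1.mono ?_
    rintro s ⟨h2, h3⟩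
    exact ⟨h3, h2⟩
  have hbasis : TopologicalSpace.IsTopologicalBasis 𝒱 := by
    apply TopologicalSpace.isTopologicalBasis_of_isOpen_of_nhds
    · rintro _ ⟨s, ⟨hsB, hsf⟩, rfl⟩
      have h1 : IsOpen (⋃₀ s) := isOpen_sUnion fun u hu => hB.isOpen (hsB hu)
      exact (h1.isClosed_compl.isCompact.image hf).isClosed.isOpen_compl
    · intro y O hy hO
      have hK : IsCompact (f ⁻¹' {y}) := (isClosed_singleton.preimage hf).isCompact
      have h1 : ∀ x ∈ f ⁻¹' {y}, ∃ b ∈ B, x ∈ b ∧ b ⊆ f ⁻¹' O := by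
        intro x hx
        have hx' : f x = y := hx
        exact hB.exists_subset_of_mem_open (show x ∈ f ⁻¹' O by rw [mem_preimage, hx']; exact hy)
          (hO.preimage hf)
      choose! b hb hxb hbO using h1
      obtain ⟨t, ht, hcov⟩ := hK.elim_nhds_subcover b fun x hx =>
        (hB.isOpen (hb x hx)).mem_nhds (hxb x hx)
      refine ⟨(f '' (⋃₀ (b '' (t : Set X)))ᶜ)ᶜ, ⟨b '' (t : Set X), ⟨?_, ?_⟩, rfl⟩, ?_, ?_⟩
      · rintro _ ⟨x, hx, rfl⟩
        exact hb x (ht x hx)
      · exact t.finite_toSet.image b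
      · rintro ⟨x, hx, hxy⟩
        apply hx
        have h2 := hcov (show x ∈ f ⁻¹' {y} from hxy)
        simp only [mem_iUnion] at h2
        obtain ⟨x', hx', h3⟩ := h2
        exact ⟨b x', ⟨x', hx', rfl⟩, h3⟩
      · intro y' hy'
        obtain ⟨x, rfl⟩ := hs y'
        by_contra hcon
        apply hy'
        refine ⟨x, ?_, rfl⟩
        rintro ⟨_, ⟨x', hx', rfl⟩, h3⟩
        exact hcon (hbO x' (ht x' hx') h3)
  exact hbasis.secondCountableTopology hcount

section quot

variable {P : DSys}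

/-- the stabiliser of a point in the group of translations -/
def stab (P : DSys) (x0 : P.X) : Subgroup (transl P.T) where
  carrier := {g | (g : P.X ≃ₜ P.X) x0 = x0}
  mul_mem' := by
    intro g h hg hh
    change (g : P.X ≃ₜ P.X) ((h : P.X ≃ₜ P.X) x0) = x0
    rw [show (h : P.X ≃ₜ P.X) x0 = x0 from hh, show (g : P.X ≃ₜ P.X) x0 = x0 from hg]
  one_mem' := rfl
  inv_mem' := by
    intro g hg
    change (g : P.X ≃ₜ P.X).symm x0 = x0
    rw [Homeomorph.symm_apply_eq]
    exact (show (g : P.X ≃ₜ P.X) x0 = x0 from hg).symm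

theorem discrete_stab (h2 : Good2 P) (x0 : P.X) : DiscreteTopology (stab P x0) := by
  obtain ⟨U, hU, h⟩ := h2
  rw [discreteTopology_iff_isOpen_singleton_one]
  rw [isOpen_iff_mem_nhds]
  intro g hg
  have hg' : g = 1 := hg
  subst hg'
  have h3 : (Subtype.val : stab P x0 → transl P.T) ⁻¹' U ∈ 𝓝 (1 : stab P x0) :=
    continuous_subtype_val.continuousAt.preimage_mem_nhds hU
  refine mem_of_superset h3 ?_
  intro g hg
  exact Subtype.ext (h g hg x0 g.2)

theorem transitive_transl (h1 : Good1 P) {l : ℕ} (hP : P.Ord l) (x0 y : P.X) :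
    ∃ g : transl P.T, (g : P.X ≃ₜ P.X) x0 = y := by
  obtain ⟨W, hW, h⟩ := h1 univ univ_mem
  have h2 : {z | (y, z) ∈ W} ∈ 𝓝 y := by
    have h3 : W ∈ 𝓝 (y, y) := mem_nhdsSet_iff_forall.1 hW (y, y) rfl
    exact (Continuous.prodMk_right y).continuousAt.preimage_mem_nhds h3
  obtain ⟨z, hz, ⟨n, rfl⟩⟩ := mem_closure_iff_nhds.1 (hP.min x0 y) _ h2
  obtain ⟨g, -, hg⟩ := h _ _ hz
  have hT : P.T ^ n ∈ transl P.T :=
    (transl P.T).zpow_mem (isTransl_self P.T) n
  refine ⟨g⁻¹ * ⟨P.T ^ n, hT⟩, ?_⟩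
  change (g : P.X ≃ₜ P.X).symm ((P.T ^ n) x0) = y
  rw [Homeomorph.symm_apply_eq]
  exact hg.symm

/-- the orbit map -/
def orbMap (P : DSys) (x0 : P.X) : (transl P.T ⧸ stab P x0) → P.X :=
  Quotient.lift (fun g : transl P.T => (g : P.X ≃ₜ P.X) x0) (by
    intro g h hgh
    have h1 : g⁻¹ * h ∈ stab P x0 := QuotientGroup.leftRel_apply.1 hgh
    have h2 : (g : P.X ≃ₜ P.X).symm ((h : P.X ≃ₜ P.X) x0) = x0 := h1
    rw [Homeomorph.symm_apply_eq] at h2
    exact h2.symm)

theorem orbMap_mk (x0 : P.X) (g : transl P.T) :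
    orbMap P x0 (QuotientGroup.mk g) = (g : P.X ≃ₜ P.X) x0 := rfl

theorem orbMap_smul (x0 : P.X) (g : transl P.T) (y : transl P.T ⧸ stab P x0) :
    orbMap P x0 (g • y) = (g : P.X ≃ₜ P.X) (orbMap P x0 y) := by
  induction y using QuotientGroup.induction_on with
  | H h => rfl

theorem orbMap_continuous (x0 : P.X) : Continuous (orbMap P x0) :=
  Continuous.quotient_lift ((homeo_continuous_apply x0).comp continuous_subtype_val) _

theorem orbMap_injective (x0 : P.X) : Function.Injective (orbMap P x0) := by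
  intro a b hab
  induction a using QuotientGroup.induction_on with
  | H g =>
    induction b using QuotientGroup.induction_on with
    | H h =>
      rw [orbMap_mk, orbMap_mk] at hab
      rw [QuotientGroup.eq]
      change (g : P.X ≃ₜ P.X).symm ((h : P.X ≃ₜ P.X) x0) = x0
      rw [Homeomorph.symm_apply_eq]
      exact hab.symm

theorem orbMap_surjective (h1 : Good1 P) {l : ℕ} (hP : P.Ord l) (x0 : P.X) :
    Function.Surjective (orbMap P x0) := by
  intro y
  obtain ⟨g, hg⟩ := transitive_transl h1 hP x0 y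
  exact ⟨QuotientGroup.mk g, hg⟩

theorem orbMap_open (h1 : Good1 P) (x0 : P.X) : IsOpenMap (orbMap P x0) := by
  intro U hU
  rw [isOpen_iff_mem_nhds]
  rintro _ ⟨a, ha, rfl⟩
  induction a using QuotientGroup.induction_on with
  | H g =>
    have h2 : (fun h : transl P.T => (QuotientGroup.mk (h * g) : transl P.T ⧸ stab P x0)) ⁻¹' U ∈
        𝓝 (1 : transl P.T) := by
      have hc : Continuous
          (fun h : transl P.T => (QuotientGroup.mk (h * g) : transl P.T ⧸ stab P x0)) :=
        QuotientGroup.continuous_mk.comp (continuous_mul_const g)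
      apply hc.continuousAt.preimage_mem_nhds
      rw [one_mul]
      exact hU.mem_nhds ha
    obtain ⟨W, hW, h⟩ := h1 _ h2
    have h3 : {z | ((g : P.X ≃ₜ P.X) x0, z) ∈ W} ∈ 𝓝 ((g : P.X ≃ₜ P.X) x0) := by
      have h4 : W ∈ 𝓝 ((g : P.X ≃ₜ P.X) x0, (g : P.X ≃ₜ P.X) x0) :=
        mem_nhdsSet_iff_forall.1 hW _ rfl
      exact (Continuous.prodMk_right _).continuousAt.preimage_mem_nhds h4
    refine mem_of_superset h3 ?_
    intro z hz
    obtain ⟨k, hk, hkz⟩ := h _ _ hz
    exact ⟨QuotientGroup.mk (k * g), hk, hkz⟩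

/-- the system is the homogeneous space of its group of translations -/
noncomputable def orbHomeo (h1 : Good1 P) {l : ℕ} (hP : P.Ord l) (x0 : P.X) :
    (transl P.T ⧸ stab P x0) ≃ₜ P.X :=
  (Equiv.ofBijective (orbMap P x0)
    ⟨orbMap_injective x0, orbMap_surjective h1 hP x0⟩).toHomeomorphOfContinuousOpen
    (orbMap_continuous x0) (orbMap_open h1 x0)

theorem orbHomeo_apply (h1 : Good1 P) {l : ℕ} (hP : P.Ord l) (x0 : P.X)
    (y : transl P.T ⧸ stab P x0) : orbHomeo h1 hP x0 y = orbMap P x0 y := rfl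

end quot

/-- A Lie tower with second countable space is a nilsystem. -/
theorem LieTower.exists_nilSystem
    (hlift : ∀ {P P' : DSys} {l : ℕ} (L : LieStep P P' l), L.Liftable)
    {Q : DSys} (h : LieTower Q) [SecondCountableTopology Q.X]
    (x0 : Q.X) : ∃ (S : NilSystem) (Φ : S.Y ≃ₜ Q.X),
      (∀ y, Φ (S.g • y) = Q.T (Φ y)) ∧ Φ S.y = x0 := by
  obtain ⟨l, hQ⟩ := h.exists_ord
  obtain ⟨E, i1, i2, i3, ⟨D⟩⟩ := h.hasLocLie hlift
  obtain ⟨c, hlie⟩ := lie_of_local D
  have hdisc : DiscreteTopology (stab Q x0) := discrete_stab h.good2 x0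
  have hcomp : CompactSpace (transl Q.T ⧸ stab Q x0) :=
    (orbHomeo (h.good1 hlift) hQ x0).symm.compactSpace
  have hsc : SecondCountableTopology (transl Q.T) :=
    (Topology.IsInducing.subtypeVal (t := (transl Q.T : Set (Q.X ≃ₜ Q.X)))).secondCountableTopology
  let S : NilSystem :=
    { G := transl Q.T
      E := E
      nilp := hQ.transl_isNilpotent
      Γ := stab Q x0
      disc := hdisc
      cocomp := hcomp
      g := ⟨Q.T, isTransl_self Q.T⟩
      y := QuotientGroup.mk 1 }
  refine ⟨S, orbHomeo (h.good1 hlift) hQ x0, ?_, rfl⟩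
  intro y
  exact orbMap_smul x0 _ y

end MP_e326dc_an
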