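import Mathlib

set_option autoImplicit false

/-!
MP_e326dc_an, block N: continuous local sections of open homomorphisms; circle extensions.
-/

namespace MP_e326dc_an

open Filter Topology Set

section sect

variable {G H : Type*} [Group G] [TopologicalSpace G] [IsTopologicalGroup G]
  [Group H] [TopologicalSpace H] [IsTopologicalGroup H]

omit [IsTopologicalGroup G] [IsTopologicalGroup H] in
/-- translations of neighbourhoods -/
theorem image_mem_nhds_of_open_one [IsTopologicalGroup G] [IsTopologicalGroup H] (q : G →* H)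
    (hopen : ∀ U ∈ 𝓝 (1 : G), q '' U ∈ 𝓝 (1 : H)) (g : G) {U : Set G} (hU : U ∈ 𝓝 g) :
    q '' U ∈ 𝓝 (q g) := by
  have h1 : (fun x => g * x) ⁻¹' U ∈ 𝓝 (1 : G) := by
    apply (continuous_const_mul g).continuousAt.preimage_mem_nhds
    simpa using hU
  have h2 := hopen _ h1
  have h3 : (fun y => (q g)⁻¹ * y) ⁻¹' (q '' ((fun x => g * x) ⁻¹' U)) ∈ 𝓝 (q g) := by
    apply (continuous_const_mul (q g)⁻¹).continuousAt.preimage_mem_nhds
    simpa using h2
  refine mem_of_superset h3 ?_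
  rintro y ⟨x, hx, hxy⟩
  refine ⟨g * x, hx, ?_⟩
  rw [map_mul, hxy]
  group

/-- Local section of a homomorphism open at `1`, from a selection `σ` which is constant on the
fibres. -/
theorem exists_local_section (q : G →* H) (hopen : ∀ U ∈ 𝓝 (1 : G), q '' U ∈ 𝓝 (1 : H))
    (σ : G → G) (U : Set G) (hU : U ∈ 𝓝 (1 : G)) (hσc : ContinuousOn σ U) (hσ1 : σ 1 = 1)
    (hσq : ∀ g ∈ U, q (σ g) = q g) (hσ : ∀ g ∈ U, ∀ g' ∈ U, q g = q g' → σ g = σ g') :
    ∃ (s : H → G) (V : Set H), V ∈ 𝓝 (1 : H) ∧ ContinuousOn s V ∧ s 1 = 1 ∧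
      (∀ y ∈ V, q (s y) = y) ∧ V ⊆ q '' U ∧ ∀ g ∈ U, s (q g) = σ g := by
  classical
  obtain ⟨U', hU'U, hU'o, h1U'⟩ := mem_nhds_iff.1 hU
  let s : H → G := fun y => if h : y ∈ q '' U then σ h.choose else 1
  have hs : ∀ g ∈ U, s (q g) = σ g := by
    intro g hg
    have h : q g ∈ q '' U := ⟨g, hg, rfl⟩
    simp only [s, dif_pos h]
    exact hσ _ h.choose_spec.1 _ hg h.choose_spec.2
  refine ⟨s, q '' U', hopen U' (hU'o.mem_nhds h1U'), ?_, ?_, ?_, ?_, hs⟩
  · rintro _ ⟨g, hg, rfl⟩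
    apply ContinuousAt.continuousWithinAt
    intro O hO
    rw [hs g (hU'U hg)] at hO
    have h2 : σ ⁻¹' O ∈ 𝓝 g :=
      (hσc.continuousAt (mem_of_superset (hU'o.mem_nhds hg) hU'U)).preimage_mem_nhds hO
    have h3 : q '' (σ ⁻¹' O ∩ U') ∈ 𝓝 (q g) :=
      image_mem_nhds_of_open_one q hopen g (inter_mem h2 (hU'o.mem_nhds hg))
    change s ⁻¹' O ∈ 𝓝 (q g)
    refine mem_of_superset h3 ?_
    rintro _ ⟨x, ⟨hx, hxU⟩, rfl⟩
    change s (q x) ∈ O
    rw [hs x (hU'U hxU)]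
    exact hx
  · have := hs 1 (mem_of_mem_nhds hU)
    rwa [map_one, hσ1] at this
  · rintro _ ⟨g, hg, rfl⟩
    rw [hs g (hU'U hg), hσq g (hU'U hg)]
  · exact image_mono hU'U

end sect

/-- A locally central extension of `H` by the circle, with a vertical function. -/
structure CircExt (G H : Type*) [Group G] [TopologicalSpace G] [Group H] [TopologicalSpace H] where
  q : G →* H
  q_cont : Continuous q
  q_open : ∀ U ∈ 𝓝 (1 : G), q '' U ∈ 𝓝 (1 : H)
  κ : Circle →* G
  κ_cont : Continuous κ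
  κ_comm : ∀ z g, κ z * g = g * κ z
  q_κ : ∀ z, q (κ z) = 1
  ker : ∃ U ∈ 𝓝 (1 : G), ∀ g ∈ U, q g = 1 → ∃ z, g = κ z
  θ : G → ℂ
  θ_cont : Continuous θ
  θ_κ : ∀ z g, θ (κ z * g) = z * θ g
  θ_one : θ 1 = 1

namespace CircExt

variable {G H : Type*} [Group G] [TopologicalSpace G] [IsTopologicalGroup G]
  [Group H] [TopologicalSpace H] [IsTopologicalGroup H] (D : CircExt G H)

/-- the one parameter group -/
noncomputable def e (t : ℝ) : G := D.κ (Circle.exp t)

omit [IsTopologicalGroup G] [IsTopologicalGroup H] in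
theorem θ_κ_one (z : Circle) : D.θ (D.κ z) = z := by
  have := D.θ_κ z 1
  rwa [mul_one, D.θ_one, mul_one] at this

omit [IsTopologicalGroup G] [IsTopologicalGroup H] in
theorem e_cont : Continuous D.e := D.κ_cont.comp Circle.exp.continuous

omit [IsTopologicalGroup G] [IsTopologicalGroup H] in
theorem e_add (t t' : ℝ) : D.e (t + t') = D.e t * D.e t' := by
  simp only [e, Circle.exp_add, map_mul]

omit [IsTopologicalGroup G] [IsTopologicalGroup H] in
theorem e_inj : Set.InjOn D.e (Set.Icc (-1) 1) := by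
  intro t ht t' ht' h
  have h1 : D.θ (D.κ (Circle.exp t)) = D.θ (D.κ (Circle.exp t')) := congrArg D.θ h
  rw [D.θ_κ_one, D.θ_κ_one] at h1
  have h2 : Circle.exp t = Circle.exp t' := Subtype.ext h1
  have hpi : (3 : ℝ) < Real.pi := Real.pi_gt_three
  have h3 := Circle.arg_exp (x := t) (by linarith [ht.1]) (by linarith [ht.2])
  have h4 := Circle.arg_exp (x := t') (by linarith [ht'.1]) (by linarith [ht'.2])
  rw [← h3, ← h4, h2]

omit [IsTopologicalGroup G] [IsTopologicalGroup H] in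
theorem ker_e : ∃ N ∈ 𝓝 (1 : G), ∀ g ∈ N, D.q g = 1 → ∃ t : ℝ, |t| < 1 ∧ g = D.e t := by
  obtain ⟨U, hU, hk⟩ := D.ker
  have h1 : ∀ᶠ w : ℂ in 𝓝 1, |Complex.arg w| < 1 := by
    have hc : ContinuousAt (fun w : ℂ => |Complex.arg w|) 1 :=
      (Complex.continuousAt_arg (by simp)).abs
    have h0 : (fun w : ℂ => |Complex.arg w|) 1 < 1 := by simp
    exact hc.eventually (gt_mem_nhds h0)
  have h2 : ∀ᶠ g : G in 𝓝 1, |Complex.arg (D.θ g)| < 1 := by
    have hc : Tendsto D.θ (𝓝 1) (𝓝 1) := by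
      have := D.θ_cont.tendsto 1
      rwa [D.θ_one] at this
    exact hc.eventually h1
  refine ⟨U ∩ {g | |Complex.arg (D.θ g)| < 1}, inter_mem hU h2, ?_⟩
  rintro g ⟨hgU, hg⟩ hqg
  obtain ⟨z, rfl⟩ := hk g hgU hqg
  refine ⟨Complex.arg z, ?_, ?_⟩
  · have : |Complex.arg (D.θ (D.κ z))| < 1 := hg
    rwa [D.θ_κ_one] at this
  · rw [e, Circle.exp_arg]

/-- the unit vector of `θ g` -/
noncomputable def dir (w : ℂ) : Circle := Circle.exp (Complex.arg w)

theorem dir_mul (z : Circle) {w : ℂ} (hw : w ≠ 0) : dir (z * w) = z * dir w := by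
  apply Subtype.ext
  have h1 : ∀ u : ℂ, u ≠ 0 → ((dir u : Circle) : ℂ) = u / ‖u‖ := by
    intro u hu
    have h2 := Complex.norm_mul_exp_arg_mul_I u
    have h3 : (‖u‖ : ℂ) ≠ 0 := by
      simpa using hu
    rw [dir, Circle.coe_exp, eq_div_iff h3, mul_comm]
    exact h2
  have hz : (z : ℂ) * w ≠ 0 := mul_ne_zero (by exact_mod_cast Circle.coe_ne_zero z) hw
  rw [Circle.coe_mul, h1 _ hz, h1 _ hw, norm_mul, Circle.norm_coe, one_mul, mul_div_assoc]

theorem continuousAt_dir {w : ℂ} (hw : w ∈ Complex.slitPlane) : ContinuousAt dir w :=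
  Circle.exp.continuous.continuousAt.comp (Complex.continuousAt_arg hw)

/-- the local section of a circle extension -/
theorem exists_section (D : CircExt G H) : ∃ (s : H → G) (V : Set H), V ∈ 𝓝 (1 : H) ∧
    ContinuousOn s V ∧ s 1 = 1 ∧ ∀ y ∈ V, D.q (s y) = y := by
  obtain ⟨U, hU, hk⟩ := D.ker
  obtain ⟨U1, hU1, hdiv⟩ : ∃ U1 ∈ 𝓝 (1 : G), ∀ v ∈ U1, ∀ w ∈ U1, v / w ∈ U := by
    have := exists_nhds_split_inv hU
    exact this
  have hslit : ∀ᶠ g : G in 𝓝 1, D.θ g ∈ Complex.slitPlane := by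
    have hc : Tendsto D.θ (𝓝 1) (𝓝 1) := by
      have := D.θ_cont.tendsto 1
      rwa [D.θ_one] at this
    exact hc (Complex.isOpen_slitPlane.mem_nhds (by simp))
  let σ : G → G := fun g => D.κ (dir (D.θ g))⁻¹ * g
  obtain ⟨s, V, hV, hsc, hs1, hqs, -, -⟩ := exists_local_section D.q D.q_open σ
    (U1 ∩ {g | D.θ g ∈ Complex.slitPlane}) (inter_mem hU1 hslit) (by
      intro g hg
      apply ContinuousAt.continuousWithinAt
      have h1 : ContinuousAt (fun g => dir (D.θ g)) g :=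
        (continuousAt_dir hg.2).comp D.θ_cont.continuousAt
      exact (D.κ_cont.continuousAt.comp h1.inv).mul continuousAt_id) (by
      simp only [σ, D.θ_one, dir, Complex.arg_one, Circle.exp_zero, inv_one, map_one, mul_one]) (by
      intro g hg
      simp only [σ, map_mul, D.q_κ, one_mul]) (by
      intro g hg g' hg' hgg'
      have h1 : D.q (g / g') = 1 := by
        rw [map_div, hgg', div_self']
      obtain ⟨z, hz⟩ := hk _ (hdiv g hg.1 g' hg'.1) h1
      have h2 : g = D.κ z * g' := by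
        rw [← hz, div_mul_cancel]
      simp only [σ]
      rw [h2, D.θ_κ, dir_mul z (Complex.slitPlane_ne_zero hg'.2), mul_inv, map_mul]
      have h3 : D.κ z⁻¹ * D.κ (dir (D.θ g'))⁻¹ * (D.κ z * g') =
          D.κ (z⁻¹ * (dir (D.θ g'))⁻¹ * z) * g' := by
        rw [map_mul, map_mul]
        group
      rw [h3]
      congr 2
      rw [mul_comm z⁻¹, mul_assoc, inv_mul_cancel, mul_one])
  exact ⟨s, V, hV, hsc, hs1, hqs⟩

end CircExt

section discrete

variable {G H : Type*} [Group G] [TopologicalSpace G] [IsTopologicalGroup G]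
  [Group H] [TopologicalSpace H] [IsTopologicalGroup H]

/-- the local section of a locally injective open homomorphism -/
theorem exists_section_discrete (q : G →* H) (hopen : ∀ U ∈ 𝓝 (1 : G), q '' U ∈ 𝓝 (1 : H))
    (N : Set G) (hN : N ∈ 𝓝 (1 : G)) (hker : ∀ g ∈ N, q g = 1 → g = 1) :
    ∃ (s : H → G) (V : Set H), V ∈ 𝓝 (1 : H) ∧ ContinuousOn s V ∧ s 1 = 1 ∧
      ∀ y ∈ V, q (s y) = y := by
  obtain ⟨U1, hU1, hdiv⟩ : ∃ U1 ∈ 𝓝 (1 : G), ∀ v ∈ U1, ∀ w ∈ U1, v / w ∈ N :=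
    exists_nhds_split_inv hN
  obtain ⟨s, V, hV, hsc, hs1, hqs, -, -⟩ := exists_local_section q hopen id U1 hU1
    continuousOn_id rfl (fun g _ => rfl) (by
      intro g hg g' hg' hgg'
      have h1 : q (g / g') = 1 := by
        rw [map_div, hgg', div_self']
      exact div_eq_one.1 (hker _ (hdiv g hg g' hg') h1))
  exact ⟨s, V, hV, hsc, hs1, hqs⟩

end discrete

end MP_e326dc_an
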