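import Pool.Agent.Lib.MP_e326dc_an.N.Trans
import Pool.Agent.Lib.MP_e326dc_an.N.Section
import Pool.Agent.Lib.MP_e326dc_an.E.Eigen
import Pool.Agent.Lib.MP_e326dc_an.L.Discrete
import Pool.Agent.Lib.MP_e326dc_an.L.LieOfLocal
import Pool.Agent.Lib.MP_e326dc_an.L.Ext

set_option autoImplicit false

/-!
MP_e326dc_an, block N: the group of translations of a Lie tower has local Lie data.
-/

namespace MP_e326dc_an

open Filter Topology Set
open scoped ContDiff Manifold

/-- the group has local Lie data -/
def HasLocLie (G : Type) [TopologicalSpace G] [Group G] : Prop :=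
  ∃ (E : Type) (_ : NormedAddCommGroup E) (_ : NormedSpace ℝ E) (_ : FiniteDimensional ℝ E),
    Nonempty (LocLie G E)

theorem closed_circle_subgroup (B : Subgroup Circle) (hB : IsClosed (B : Set Circle)) :
    B = ⊤ ∨ ∃ N ∈ 𝓝 (1 : Circle), ∀ z ∈ N, z ∈ B → z = 1 := by
  let A : AddSubgroup ℝ :=
    { carrier := {t | Circle.exp t ∈ B}
      add_mem' := by
        intro s t hs ht
        change Circle.exp (s + t) ∈ B
        rw [Circle.exp_add]
        exact B.mul_mem hs ht
      zero_mem' := by
        change Circle.exp 0 ∈ B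
        rw [Circle.exp_zero]
        exact B.one_mem
      neg_mem' := by
        intro t ht
        change Circle.exp (-t) ∈ B
        rw [Circle.exp_neg]
        exact B.inv_mem ht }
  have hAc : IsClosed (A : Set ℝ) := hB.preimage Circle.exp.continuous
  rcases AddSubgroup.dense_or_cyclic A with hd | ⟨a, ha⟩
  · left
    rw [eq_top_iff]
    intro z _
    have h1 : (A : Set ℝ) = univ := by
      rw [← hAc.closure_eq, hd.closure_eq]
    have h2 : Complex.arg z ∈ (A : Set ℝ) := h1 ▸ mem_univ _
    have h3 : Circle.exp (Complex.arg z) ∈ B := h2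
    rwa [Circle.exp_arg] at h3
  · right
    have ha0 : a ≠ 0 := by
      rintro rfl
      have h1 : 2 * Real.pi ∈ A := by
        change Circle.exp (2 * Real.pi) ∈ B
        rw [Circle.exp_two_pi]
        exact B.one_mem
      rw [ha, AddSubgroup.mem_closure_singleton] at h1
      obtain ⟨n, hn⟩ := h1
      have h2 : 2 * Real.pi = 0 := by
        rw [← hn, smul_zero]
      have := Real.pi_pos
      linarith
    have h1 : ∀ᶠ z : Circle in 𝓝 1, |Complex.arg z| < |a| := by
      have hc : ContinuousAt (fun z : Circle => |Complex.arg (z : ℂ)|) 1 := by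
        have h2 : ContinuousAt (fun w : ℂ => |Complex.arg w|) ((1 : Circle) : ℂ) :=
          (Complex.continuousAt_arg (by simp)).abs
        exact h2.comp (f := fun z : Circle => (z : ℂ)) continuous_subtype_val.continuousAt
      have h0 : (fun z : Circle => |Complex.arg (z : ℂ)|) 1 < |a| := by
        simpa using ha0
      exact hc.eventually (gt_mem_nhds h0)
    refine ⟨_, h1, fun z hz hzB => ?_⟩
    have h2 : Complex.arg z ∈ A := by
      change Circle.exp (Complex.arg z) ∈ B
      rwa [Circle.exp_arg]
    rw [ha, AddSubgroup.mem_closure_singleton] at h2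
    obtain ⟨n, hn⟩ := h2
    have h3 : |Complex.arg z| < |a| := hz
    rw [← hn] at h3
    have hn0 : n = 0 := by
      by_contra hne
      have h4 : (1 : ℝ) ≤ |(n : ℝ)| := by
        exact_mod_cast Int.one_le_abs hne
      rw [zsmul_eq_mul, abs_mul] at h3
      have h5 := abs_pos.2 ha0
      nlinarith
    rw [hn0, zero_smul] at hn
    have h4 := Circle.exp_arg z
    rw [← hn, Circle.exp_zero] at h4
    exact h4.symm

theorem HasLocLie.of_subsingleton (G : Type) [TopologicalSpace G] [Group G] [Subsingleton G] :
    HasLocLie G := by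
  let Φ : G ≃ₜ PUnit.{1} :=
    { toFun := fun _ => 0
      invFun := fun _ => 1
      left_inv := fun _ => Subsingleton.elim _ _
      right_inv := fun _ => Subsingleton.elim _ _
      continuous_toFun := continuous_const
      continuous_invFun := continuous_const }
  refine ⟨PUnit.{1}, inferInstance, inferInstance, inferInstance, ⟨?_⟩⟩
  exact
    { φ := Φ.toOpenPartialHomeomorph
      one_mem := mem_univ _
      φ_one := rfl
      r := 1
      r_pos := one_pos
      ball_sub := fun _ _ => mem_univ _
      mul_mem := fun _ _ _ _ => mem_univ _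
      inv_mem := fun _ _ => mem_univ _
      mul_smooth := by
        have h : (fun p : PUnit.{1} × PUnit.{1} => Φ.toOpenPartialHomeomorph
            (Φ.toOpenPartialHomeomorph.symm p.1 * Φ.toOpenPartialHomeomorph.symm p.2)) =
            fun _ => 0 := rfl
        rw [h]
        exact contDiffOn_const
      inv_smooth := by
        have h : (fun x : PUnit.{1} => Φ.toOpenPartialHomeomorph
            (Φ.toOpenPartialHomeomorph.symm x)⁻¹) = fun _ => 0 := rfl
        rw [h]
        exact contDiffOn_const
      conj_smooth := fun g => ⟨1, one_pos, le_refl _, fun _ _ => mem_univ _, by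
        have h : (fun x : PUnit.{1} => Φ.toOpenPartialHomeomorph
            (g * Φ.toOpenPartialHomeomorph.symm x * g⁻¹)) = fun _ => 0 := rfl
        rw [h]
        exact contDiffOn_const⟩ }

namespace LieStep

variable {P P' : DSys} {l : ℕ} (L : LieStep P P' l)

/-- the circle extension attached to a Lie step by the full circle -/
theorem exists_circExt (hL : L.Liftable) (hB : L.B = ⊤) :
    Nonempty (CircExt (transl P.T) (transl P'.T)) := by
  obtain ⟨x0⟩ := L.ord.ne
  obtain ⟨n, f, hf, hsum⟩ := L.exists_eigen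
  obtain ⟨i, hi⟩ : ∃ i, f i x0 ≠ 0 := by
    by_contra hcon
    push Not at hcon
    have h1 := hsum x0
    simp [hcon] at h1
  let ι : Circle →* L.B :=
    { toFun := fun z => ⟨z, hB ▸ Subgroup.mem_top z⟩
      map_one' := rfl
      map_mul' := fun _ _ => rfl }
  have hι : Continuous ι := Continuous.subtype_mk continuous_id _
  refine ⟨{ q := L.q
            q_cont := L.q_continuous
            q_open := L.q_open hL
            κ := L.κ.comp ι
            κ_cont := L.κ_continuous.comp hι
            κ_comm := fun z g => L.κ_comm _ g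
            q_κ := fun z => L.q_κ _
            ker := ?_
            θ := fun g => f i ((g : P.X ≃ₜ P.X) x0) / f i x0
            θ_cont := ?_
            θ_κ := ?_
            θ_one := ?_ }⟩
  · obtain ⟨U, hU, hk⟩ := L.q_ker
    refine ⟨U, hU, fun g hg hq => ?_⟩
    obtain ⟨b, hb⟩ := hk g hg hq
    exact ⟨b, hb⟩
  · exact ((f i).continuous.comp ((homeo_continuous_apply x0).comp
      continuous_subtype_val)).div_const _
  · intro z g
    have h1 : f i (((L.κ.comp ι z * g : transl P.T) : P.X ≃ₜ P.X) x0) =
        (z : ℂ) * f i ((g : P.X ≃ₜ P.X) x0) := hf i (ι z) _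
    rw [h1, mul_div_assoc]
  · exact div_self hi

/-- the kernel of a discrete Lie step is locally trivial -/
theorem q_ker_discrete 
    (hB : ∃ N ∈ 𝓝 (1 : Circle), ∀ z ∈ N, z ∈ L.B → z = 1) :
    ∃ U ∈ 𝓝 (1 : transl P.T), ∀ g ∈ U, L.q g = 1 → g = 1 := by
  have : CompactSpace L.B := isCompact_iff_compactSpace.1 L.closed.isCompact
  obtain ⟨x0⟩ := L.ord.ne
  obtain ⟨N, hN, h1⟩ := hB
  have hN' : (Subtype.val : L.B → Circle) ⁻¹' N ∈ 𝓝 (1 : L.B) :=
    continuous_subtype_val.continuousAt.preimage_mem_nhds hN
  obtain ⟨W, hW, hW'⟩ := L.act.exists_near_mem hN'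
  obtain ⟨U, hU, hk⟩ := L.q_ker
  refine ⟨U ∩ {g | Near W (g : P.X ≃ₜ P.X)}, inter_mem hU (near_mem_nhds_one _ hW), ?_⟩
  rintro g ⟨hg1, hg2⟩ hq
  obtain ⟨b, rfl⟩ := hk g hg1 hq
  have h2 : b = 1 := Subtype.ext (h1 b (hW' b x0 (hg2 x0)) b.2)
  rw [h2, map_one]

include L in
theorem hasLocLie (hL : L.Liftable) (h : HasLocLie (transl P'.T)) :
    HasLocLie (transl P.T) := by
  obtain ⟨E, i1, i2, i3, ⟨D⟩⟩ := h
  rcases closed_circle_subgroup L.B L.closed with hB | hB
  · obtain ⟨C⟩ := L.exists_circExt hL hB
    obtain ⟨N, hN, hker⟩ := C.ker_e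
    obtain ⟨s, V, hV, hsc, hs1, hqs⟩ := C.exists_section
    exact ⟨ℝ × E, inferInstance, inferInstance, inferInstance,
      locLie_ext D C.q C.q_cont C.e C.e_cont C.e_add (fun t g => C.κ_comm _ g)
        (fun t => C.q_κ _) 1 one_pos C.e_inj N hN hker s V hV hsc hs1 hqs⟩
  · obtain ⟨U, hU, hk⟩ := L.q_ker_discrete hB
    obtain ⟨s, V, hV, hsc, hs1, hqs⟩ := exists_section_discrete L.q (L.q_open hL) U hU hk
    exact ⟨E, inferInstance, inferInstance, inferInstance,
      locLie_discrete D L.q (L.q_continuous) U hU hk s V hV hsc hs1 hqs⟩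

end LieStep

theorem LieTower.hasLocLie
    (hlift : ∀ {P P' : DSys} {l : ℕ} (L : LieStep P P' l), L.Liftable)
    {P : DSys} (h : LieTower P) : HasLocLie (transl P.T) := by
  induction h with
  | @point Z h =>
    have := h.subsingleton
    have : Subsingleton (transl Z.T) :=
      ⟨fun g g' => Subtype.ext (Homeomorph.ext fun y => Subsingleton.elim _ _)⟩
    exact HasLocLie.of_subsingleton _
  | step L h ih => exact LieStep.hasLocLie L (hlift L) ih

end MP_e326dc_an
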