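import Pool.Agent.Lib.MP_e326dc_an.E.Vert
import Pool.Agent.Lib.MP_e326dc_an.E.Lift
import Pool.Agent.Lib.MP_e326dc_an.E.Transl
import Pool.Agent.Lib.MP_e326dc_an.N.Homeo

set_option autoImplicit false

/-!
MP_e326dc_an, block N (= E9): near points are exchanged by near translations, near translations
without fixed points; induction over the Lie tower.
-/

namespace MP_e326dc_an

open Filter Topology Set

section nhds

variable {X : Type*} [TopologicalSpace X] [CompactSpace X] [T2Space X]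

theorem subgroup_mem_nhds_one (Γ : Subgroup (X ≃ₜ X)) {U : Set Γ} :
    U ∈ 𝓝 (1 : Γ) ↔ ∃ V ∈ 𝓝ˢ (diagonal X), ∀ g : Γ, Near V (g : X ≃ₜ X) → g ∈ U := by
  rw [mem_nhds_subtype]
  constructor
  · rintro ⟨U', hU', h⟩
    obtain ⟨V, hV, hVU⟩ := homeo_mem_nhds_one.1 hU'
    exact ⟨V, hV, fun g hg => h (hVU g hg)⟩
  · rintro ⟨V, hV, h⟩
    refine ⟨{g | Near V g}, homeo_mem_nhds_one.2 ⟨V, hV, fun g hg => hg⟩, ?_⟩
    intro g hg
    exact h g hg

theorem near_mem_nhds_one (Γ : Subgroup (X ≃ₜ X)) {V : Set (X × X)} (hV : V ∈ 𝓝ˢ (diagonal X)) :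
    {g : Γ | Near V (g : X ≃ₜ X)} ∈ 𝓝 (1 : Γ) :=
  (subgroup_mem_nhds_one Γ).2 ⟨V, hV, fun _ hg => hg⟩

end nhds

namespace GAct

variable {C : Type} [CommGroup C] [TopologicalSpace C] {P : DSys} (a : GAct C P)

/-- the action is continuous as a map to the group of homeomorphisms -/
theorem continuous_hom [IsTopologicalGroup C] : Continuous (fun c => a.hom c : C → (P.X ≃ₜ P.X)) := by
  rw [homeo_continuous_iff]
  constructor
  · apply ContinuousMap.continuous_of_continuous_uncurry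
    exact a.cont
  · apply ContinuousMap.continuous_of_continuous_uncurry
    have h : (Function.uncurry fun (c : C) (x : P.X) => (a.hom c).symm x) =
        fun q : C × P.X => a.hom q.1⁻¹ q.2 := by
      funext q
      rw [map_inv]
      rfl
    change Continuous (Function.uncurry fun (c : C) (x : P.X) => (a.hom c).symm x)
    rw [h]
    exact a.cont.comp ((continuous_fst.inv).prodMk continuous_snd)

/-- the elements which move a point very little are small -/
theorem exists_near_mem [CompactSpace C] {N : Set C} (hN : N ∈ 𝓝 (1 : C)) :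
    ∃ W ∈ 𝓝ˢ (diagonal P.X), ∀ c x, (x, a.hom c x) ∈ W → c ∈ N := by
  obtain ⟨N', hN'N, hN'o, h1⟩ := mem_nhds_iff.1 hN
  let K : Set (P.X × P.X) := (fun r : C × P.X => (r.2, a.hom r.1 r.2)) '' (N'ᶜ ×ˢ univ)
  have hK : IsCompact K :=
    (hN'o.isClosed_compl.isCompact.prod isCompact_univ).image (continuous_snd.prodMk a.cont)
  refine ⟨Kᶜ, hK.isClosed.isOpen_compl.mem_nhdsSet.2 ?_, ?_⟩
  · rintro ⟨x, y⟩ hxy ⟨⟨c, z⟩, ⟨hc, -⟩, hcz⟩
    have hxy' : x = y := hxy
    simp only [Prod.mk.injEq] at hcz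
    obtain ⟨rfl, h2⟩ := hcz
    rw [← hxy'] at h2
    have h3 := a.free c z h2
    exact hc (h3 ▸ h1)
  · intro c x h
    by_contra hc
    exact h ⟨(c, x), ⟨fun h' => hc (hN'N h'), mem_univ _⟩, rfl⟩

end GAct

theorem DSys.Ord.subsingleton {P : DSys} (hP : P.Ord 0) : Subsingleton P.X := by
  constructor
  intro x y
  -- the cube `(x, y)`
  have hxy : ∀ x y : P.X, (fun S : Finset (Fin 1) => if S = Finset.univ then y else x) ∈
      Cub P.T (Fin 1) := by
    intro x y
    have h1 : MapsTo (fun w : P.X => (fun S : Finset (Fin 1) => if S = Finset.univ then w else x))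
        (range fun n : ℤ => (P.T ^ n) x)
        {c | ∃ (n : ℤ) (h : Fin 1 → ℤ) (x : P.X), c = dcube P.T n h x} := by
      rintro _ ⟨n, rfl⟩
      refine ⟨0, fun _ => n, x, ?_⟩
      funext S
      simp only [dcube, expo, Finset.sum_const, zero_add, nsmul_eq_mul]
      by_cases hS : S = Finset.univ
      · subst hS
        simp
      · have hS' : S = ∅ := by
          rw [← Finset.not_nonempty_iff_eq_empty]
          rintro ⟨i, hi⟩
          apply hS
          ext j
          rw [Subsingleton.elim j i]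
          exact ⟨fun _ => Finset.mem_univ _, fun _ => hi⟩
        subst hS'
        rw [if_neg hS]
        simp
    have h2 : Continuous (fun w : P.X => (fun S : Finset (Fin 1) =>
        if S = Finset.univ then w else x)) := by
      refine continuous_pi fun S => ?_
      by_cases hS : S = Finset.univ
      · simp only [hS, if_true]
        exact continuous_id
      · simp only [hS, if_false]
        exact continuous_const
    exact h1.closure h2 ((hP.min x).closure_eq ▸ mem_univ y)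
  have h := hP.uniq _ (hxy x y) _ (hxy x x) (fun S hS => by
    have hS' : S ≠ (Finset.univ : Finset (Fin 1)) := hS
    simp only [hS', if_false])
  have h2 := congrFun h Finset.univ
  simpa using h2.symm

theorem LieTower.exists_ord {P : DSys} (h : LieTower P) : ∃ l, P.Ord l := by
  cases h with
  | point h => exact ⟨0, h⟩
  | step L h => exact ⟨_, L.ord⟩

namespace LieStep

variable {P P' : DSys} {l : ℕ} (L : LieStep P P' l)

/-- the homomorphism between the groups of translations -/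
noncomputable def q : transl P.T →* transl P'.T := L.exists_desc_hom.choose

theorem q_apply (g : transl P.T) (x : P.X) :
    L.fac.π ((g : P.X ≃ₜ P.X) x) = (L.q g : P'.X ≃ₜ P'.X) (L.fac.π x) :=
  L.exists_desc_hom.choose_spec g x

theorem q_continuous : Continuous L.q := by
  apply continuous_of_continuousAt_one
  intro U hU
  rw [map_one] at hU
  obtain ⟨V, hV, hVU⟩ := (subgroup_mem_nhds_one _).1 hU
  rw [Filter.mem_map, subgroup_mem_nhds_one]
  refine ⟨_, preimage_mem_nhdsSet_diagonal L.fac.cont hV, fun g hg => hVU _ ?_⟩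
  intro y
  obtain ⟨x, rfl⟩ := L.fac.surj y
  have := hg x
  rw [mem_ofPred_eq] at this
  dsimp only at this
  rwa [L.q_apply] at this

theorem q_open (hL : L.Liftable) (U : Set (transl P.T)) (hU : U ∈ 𝓝 1) :
    L.q '' U ∈ 𝓝 1 := by
  obtain ⟨V, hV, hVU⟩ := (subgroup_mem_nhds_one _).1 hU
  obtain ⟨V', hV', h⟩ := hL.lift V hV
  rw [subgroup_mem_nhds_one]
  refine ⟨V', hV', fun g hg => ?_⟩
  obtain ⟨gh, hgh, h1, h2⟩ := h g g.2 hg
  refine ⟨⟨gh, hgh⟩, hVU _ h2, ?_⟩
  apply Subtype.ext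
  ext y
  obtain ⟨x, rfl⟩ := L.fac.surj y
  rw [← L.q_apply, ← h1]

/-- the structure elements inside the group of translations -/
noncomputable def κ : L.B →* transl P.T :=
  L.act.hom.codRestrict (transl P.T) fun b => L.isTransl_act b

theorem κ_apply (b : L.B) (x : P.X) : (L.κ b : P.X ≃ₜ P.X) x = L.act.hom b x := rfl

theorem κ_continuous : Continuous L.κ :=
  Continuous.subtype_mk L.act.continuous_hom _

theorem κ_comm (b : L.B) (g : transl P.T) : L.κ b * g = g * L.κ b := by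
  apply Subtype.ext
  ext x
  change L.act.hom b ((g : P.X ≃ₜ P.X) x) = (g : P.X ≃ₜ P.X) (L.act.hom b x)
  exact (L.comm_act g.2 b x).symm

theorem q_κ (b : L.B) : L.q (L.κ b) = 1 := by
  apply Subtype.ext
  ext y
  obtain ⟨x, rfl⟩ := L.fac.surj y
  rw [← L.q_apply]
  exact ((L.fib x _).2 ⟨b, rfl⟩).symm

theorem q_ker :
    ∃ U ∈ 𝓝 (1 : transl P.T), ∀ g ∈ U, L.q g = 1 → ∃ b, g = L.κ b := by
  obtain ⟨W, hW, h⟩ := L.exists_vertical
  refine ⟨{g | Near W (g : P.X ≃ₜ P.X)}, near_mem_nhds_one _ hW, fun g hg hq => ?_⟩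
  obtain ⟨b, hb⟩ := h g g.2 hg (fun x => by
    rw [L.q_apply, hq]
    rfl)
  refine ⟨b, ?_⟩
  apply Subtype.ext
  ext x
  exact hb x

end LieStep

/-- near points are exchanged by near translations -/
def Good1 (P : DSys) : Prop := ∀ U ∈ 𝓝 (1 : transl P.T), ∃ W ∈ 𝓝ˢ (diagonal P.X),
  ∀ x y, (x, y) ∈ W → ∃ g ∈ U, (g : P.X ≃ₜ P.X) x = y

/-- near translations have no fixed points -/
def Good2 (P : DSys) : Prop := ∃ U ∈ 𝓝 (1 : transl P.T), ∀ g ∈ U, ∀ x,
  (g : P.X ≃ₜ P.X) x = x → g = 1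

theorem LieStep.good1 {P P' : DSys} {l : ℕ} (L : LieStep P P' l) (hL : L.Liftable)
    (h : Good1 P') : Good1 P := by
  have : CompactSpace L.B := isCompact_iff_compactSpace.1 L.closed.isCompact
  intro U hU
  obtain ⟨U1, hU1, hmul⟩ : ∃ U1 ∈ 𝓝 (1 : transl P.T), ∀ v ∈ U1, ∀ w ∈ U1, v * w ∈ U :=
    exists_nhds_one_split hU
  have hN : L.κ ⁻¹' U1 ∈ 𝓝 (1 : L.B) := by
    apply L.κ_continuous.continuousAt.preimage_mem_nhds
    rwa [map_one]
  obtain ⟨W1, hW1, hW1'⟩ := L.act.exists_near_mem hN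
  obtain ⟨V, hV, -, hsymm, hcomp⟩ := exists_comp_nhdsSet hW1
  obtain ⟨W', hW', hh⟩ := h _ (L.q_open hL (U1 ∩ {g | Near V (g : P.X ≃ₜ P.X)})
    (inter_mem hU1 (near_mem_nhds_one _ hV)))
  refine ⟨V ∩ _, inter_mem hV (preimage_mem_nhdsSet_diagonal L.fac.cont hW'), ?_⟩
  rintro x y ⟨hxy, hxy'⟩
  obtain ⟨_, ⟨g, ⟨hg1, hg2⟩, rfl⟩, hg3⟩ := hh _ _ hxy'
  rw [← L.q_apply] at hg3
  obtain ⟨b, hb⟩ := (L.fib _ _).1 hg3
  refine ⟨L.κ b * g, hmul _ ?_ _ hg1, hb⟩
  refine hW1' b ((g : P.X ≃ₜ P.X) x) ?_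
  rw [hb]
  exact hcomp _ _ _ (hsymm _ _ (hg2 x)) hxy

theorem LieStep.good2 {P P' : DSys} {l : ℕ} (L : LieStep P P' l)
    (h : Good2 P') : Good2 P := by
  obtain ⟨U', hU', h'⟩ := h
  obtain ⟨U, hU, hk⟩ := L.q_ker
  refine ⟨U ∩ L.q ⁻¹' U', inter_mem hU ?_, ?_⟩
  · apply (L.q_continuous).continuousAt.preimage_mem_nhds
    rwa [map_one]
  · rintro g ⟨hg1, hg2⟩ x hx
    have h1 : L.q g = 1 := by
      apply h' _ hg2 (L.fac.π x)
      rw [← L.q_apply, hx]
    obtain ⟨b, rfl⟩ := hk g hg1 h1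
    rw [L.act.free b x hx, map_one]

theorem LieTower.good1
    (hlift : ∀ {P P' : DSys} {l : ℕ} (L : LieStep P P' l), L.Liftable)
    {P : DSys} (h : LieTower P) : Good1 P := by
  induction h with
  | point h =>
    have := h.subsingleton
    intro U hU
    exact ⟨univ, univ_mem, fun x y _ => ⟨1, mem_of_mem_nhds hU, Subsingleton.elim _ _⟩⟩
  | step L h ih => exact L.good1 (hlift L) ih

theorem LieTower.good2 {P : DSys} (h : LieTower P) : Good2 P := by
  induction h with
  | point h =>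
    have := h.subsingleton
    exact ⟨univ, univ_mem, fun g _ x _ => Subtype.ext (Homeomorph.ext fun y =>
      Subsingleton.elim _ _)⟩
  | step L h ih => exact L.good2 ih

end MP_e326dc_an
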